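import Mathlib

set_option autoImplicit false

universe u v w

open TensorProduct
open scoped Matrix

namespace Pool.Agent.H413.RS

/-- A family of as many elements of the field of rational functions as there are variables, over
which the variables are algebraic, is algebraically independent. -/
theorem indep_of_algebraic {R : Type u} [CommRing R] [IsDomain R] {σ : Type} [Finite σ]
    {F : Type u} [Field F] [Algebra R F] [Algebra (MvPolynomial σ R) F]
    [IsScalarTower R (MvPolynomial σ R) F] [IsFractionRing (MvPolynomial σ R) F]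
    (y : σ → F)
    (h : ∀ s, IsAlgebraic (Algebra.adjoin R (Set.range y))
      (algebraMap (MvPolynomial σ R) F (MvPolynomial.X s))) :
    AlgebraicIndependent R y := by
  classical
  have hRF : Function.Injective (algebraMap R F) := by
    rw [IsScalarTower.algebraMap_eq R (MvPolynomial σ R) F]
    exact (IsFractionRing.injective (MvPolynomial σ R) F).comp (MvPolynomial.C_injective σ R)
  haveI : FaithfulSMul R F := (faithfulSMul_iff_algebraMap_injective R F).2 hRF
  haveI : FaithfulSMul (MvPolynomial σ R) F := (faithfulSMul_iff_algebraMap_injective _ _).2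
    (IsFractionRing.injective (MvPolynomial σ R) F)
  haveI : Algebra.IsAlgebraic (MvPolynomial σ R) F :=
    IsLocalization.isAlgebraic F (nonZeroDivisors (MvPolynomial σ R))
  have hb : IsTranscendenceBasis R (algebraMap (MvPolynomial σ R) F ∘ (MvPolynomial.X : σ → _)) :=
    (IsTranscendenceBasis.mvPolynomial σ R).algebraMap_comp
  have hcard := hb.lift_cardinalMk_eq_trdeg
  have halg : Algebra.IsAlgebraic (Algebra.adjoin R (Set.range y)) F := by
    have hp : ∀ p : MvPolynomial σ R, IsAlgebraic (Algebra.adjoin R (Set.range y))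
        (algebraMap (MvPolynomial σ R) F p) := by
      intro p
      induction p using MvPolynomial.induction_on with
      | C r =>
        have h1 : algebraMap (MvPolynomial σ R) F (MvPolynomial.C r) =
            algebraMap (Algebra.adjoin R (Set.range y)) F (algebraMap R _ r) := by
          rw [← MvPolynomial.algebraMap_eq, ← IsScalarTower.algebraMap_apply,
            ← IsScalarTower.algebraMap_apply]
        rw [h1]
        exact isAlgebraic_algebraMap _
      | add p q hp hq =>
        rw [map_add]
        exact hp.add hq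
      | mul_X p i hp =>
        rw [map_mul]
        exact hp.mul (h i)
    refine ⟨fun z => ?_⟩
    obtain ⟨p, q, hq, rfl⟩ := IsFractionRing.div_surjective (A := MvPolynomial σ R) z
    rw [div_eq_mul_inv]
    exact (hp p).mul (IsAlgebraic.inv_iff.2 (hp q))
  exact (Algebra.IsAlgebraic.isTranscendenceBasis_of_lift_le_trdeg_of_finite R y
    (le_of_eq hcard)).1

/-- Base change to the function field of the parameters. -/
theorem tensor_inj {k R L F : Type u} [Field k] [CommRing R] [Algebra k R] [Field L] [Algebra k L]
    [Algebra R L] [IsScalarTower k R L] {σ : Type} (t : σ → L)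
    (ht : AlgebraicIndependent R t) [Field F] [Algebra k F] [Algebra (MvPolynomial σ k) F]
    [IsScalarTower k (MvPolynomial σ k) F] [IsFractionRing (MvPolynomial σ k) F]
    (φ : F →ₐ[k] L) (hφ : ∀ s, φ (algebraMap (MvPolynomial σ k) F (MvPolynomial.X s)) = t s) :
    Function.Injective (Algebra.TensorProduct.productMap (IsScalarTower.toAlgHom k R L) φ) := by
  classical
  let ι : MvPolynomial σ k →ₐ[k] F := IsScalarTower.toAlgHom k (MvPolynomial σ k) F
  have hι : Function.Injective ι := IsFractionRing.injective (MvPolynomial σ k) F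
  have hφι : φ.comp ι = MvPolynomial.aeval t := by
    apply MvPolynomial.algHom_ext
    intro i
    rw [MvPolynomial.aeval_X]
    exact hφ i
  let γ : R →ₐ[k] L := IsScalarTower.toAlgHom k R L
  let Γ := Algebra.TensorProduct.productMap γ φ
  let Γ0 := Algebra.TensorProduct.productMap γ (φ.comp ι)
  -- the polynomial version
  have h0 : Function.Injective Γ0 := by
    have h1 : ∀ z : R ⊗[k] MvPolynomial σ k,
        Γ0 z = MvPolynomial.aeval t (MvPolynomial.algebraTensorAlgEquiv k R z) := by
      intro z
      induction z using TensorProduct.induction_on with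
      | zero => rw [map_zero, map_zero, map_zero]
      | tmul r p =>
        rw [MvPolynomial.algebraTensorAlgEquiv_tmul, map_smul, Algebra.smul_def]
        change γ r * (φ.comp ι) p = _
        rw [hφι]
        congr 1
        exact (MvPolynomial.aeval_map_algebraMap R t p).symm
      | add x y hx hy => rw [map_add, hx, hy, map_add, map_add]
    intro x y hxy
    rw [h1, h1] at hxy
    exact (MvPolynomial.algebraTensorAlgEquiv k R).injective (ht hxy)
  let M := Algebra.TensorProduct.map (AlgHom.id k R) ι
  have hM : ∀ z, Γ (M z) = Γ0 z := by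
    intro z
    induction z using TensorProduct.induction_on with
    | zero => rw [map_zero, map_zero, map_zero]
    | tmul r p => rfl
    | add x y hx hy => rw [map_add, map_add, hx, hy, map_add]
  -- clearing denominators
  have hden : ∀ z : R ⊗[k] F, ∃ p : MvPolynomial σ k, p ≠ 0 ∧ ∃ y, (1 ⊗ₜ ι p) * z = M y := by
    intro z
    induction z using TensorProduct.induction_on with
    | zero => exact ⟨1, one_ne_zero, 0, by rw [mul_zero, map_zero]⟩
    | tmul r f =>
      obtain ⟨p, q, hq, rfl⟩ := IsFractionRing.div_surjective (A := MvPolynomial σ k) f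
      have hq0 : q ≠ 0 := nonZeroDivisors.ne_zero hq
      refine ⟨q, hq0, r ⊗ₜ p, ?_⟩
      have hιq : ι q ≠ 0 := fun h => hq0 (hι (by rw [h, map_zero]))
      rw [Algebra.TensorProduct.tmul_mul_tmul, one_mul]
      change _ = r ⊗ₜ ι p
      congr 1
      change ι q * (ι p / ι q) = ι p
      field_simp
    | add x y hx hy =>
      obtain ⟨p, hp, x', hx'⟩ := hx
      obtain ⟨q, hq, y', hy'⟩ := hy
      refine ⟨p * q, mul_ne_zero hp hq, (1 ⊗ₜ q) * x' + (1 ⊗ₜ p) * y', ?_⟩
      have e1 : (1 : R) ⊗ₜ[k] ι (p * q) = (1 ⊗ₜ ι p) * (1 ⊗ₜ ι q) := by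
        rw [Algebra.TensorProduct.tmul_mul_tmul, one_mul, map_mul]
      have e2 : ∀ s : MvPolynomial σ k, M (1 ⊗ₜ s) = 1 ⊗ₜ ι s := fun s => rfl
      rw [e1, map_add, map_mul, map_mul, ← hx', ← hy', e2, e2]
      ring
  rw [injective_iff_map_eq_zero]
  intro z hz
  obtain ⟨p, hp, y, hy⟩ := hden z
  have h1 : Γ0 y = 0 := by
    rw [← hM, ← hy]
    change Γ _ = 0
    rw [map_mul]
    have hz' : Γ z = 0 := hz
    rw [hz', mul_zero]
  have h2 : y = 0 := h0 (by rw [h1, map_zero])
  rw [h2, map_zero] at hy
  have hιp : ι p ≠ 0 := fun h => hp (hι (by rw [h, map_zero]))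
  have h3 : ((1 : R) ⊗ₜ[k] (ι p)⁻¹) * ((1 ⊗ₜ ι p) * z) = z := by
    rw [← mul_assoc, Algebra.TensorProduct.tmul_mul_tmul, one_mul, inv_mul_cancel₀ hιp]
    exact one_mul z
  rw [hy, mul_zero] at h3
  exact h3.symm

end Pool.Agent.H413.RS
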