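import Pool.Agent.H413.RS.Smooth
import Pool.Graph.R_seed8.H920R2.Cu4

set_option autoImplicit false

universe u v w

open TensorProduct Pool.Agent.H920R2
open scoped Matrix

namespace Pool.Agent.H413.RS

/-- Evaluation of the cubic algebra at a point. -/
def Cub.ev {S : Type u} [CommRing S] {a : Fin 6 → S} (t1 t2 : S)
    (h11 : t1 * t1 = Cub.kA a + a 0 * t1 + a 1 * t2)
    (h12 : t1 * t2 = Cub.kB a + a 2 * t1 + a 3 * t2)
    (h22 : t2 * t2 = Cub.kC a + a 4 * t1 + a 5 * t2) : Cub S a →+* S where
  toFun x := x.c0 + x.c1 * t1 + x.c2 * t2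
  map_one' := by simp
  map_mul' x y := by
    simp only [Cub.mul_c0, Cub.mul_c1, Cub.mul_c2]
    linear_combination (-(x.c1 * y.c1)) * h11 - (x.c1 * y.c2 + x.c2 * y.c1) * h12 -
      (x.c2 * y.c2) * h22
  map_zero' := by simp
  map_add' x y := by
    simp only [Cub.add_c0, Cub.add_c1, Cub.add_c2]
    ring

lemma Cub.kA_map {S S' : Type*} [CommRing S] [CommRing S'] (f : S →+* S') (a : Fin 6 → S) :
    f (Cub.kA a) = Cub.kA (fun i => f (a i)) := by simp [Cub.kA]
lemma Cub.kB_map {S S' : Type*} [CommRing S] [CommRing S'] (f : S →+* S') (a : Fin 6 → S) :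
    f (Cub.kB a) = Cub.kB (fun i => f (a i)) := by simp [Cub.kB]
lemma Cub.kC_map {S S' : Type*} [CommRing S] [CommRing S'] (f : S →+* S') (a : Fin 6 → S) :
    f (Cub.kC a) = Cub.kC (fun i => f (a i)) := by simp [Cub.kC]

section core

variable {k F B R3 L : Type u} [Field k] [Field F] [Algebra k F] [CommRing B] [Algebra k B]
  [CommRing R3] [Algebra k R3] {j : Fin 3 → (B →ₐ[k] R3)} (hj : IsCoprod k j)
  [Field L] [Algebra k L] (φ : F →ₐ[k] L) (γ : R3 →ₐ[k] L)
  (T : Matrix (Fin 3) (Fin 3) F) (hT0 : ∀ i, T i 0 = 1) (hdet : T.det ≠ 0)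
  (a : Fin 6 → F)
  (h11 : ∀ i, T i 1 * T i 1 = Cub.kA a + a 0 * T i 1 + a 1 * T i 2)
  (h12 : ∀ i, T i 1 * T i 2 = Cub.kB a + a 2 * T i 1 + a 3 * T i 2)
  (h22 : ∀ i, T i 2 * T i 2 = Cub.kC a + a 4 * T i 1 + a 5 * T i 2)
  (y : B → Fin 3 → L)
  (hy : ∀ b i, γ (j i b) = y b 0 + y b 1 * φ (T i 1) + y b 2 * φ (T i 2))

/-- evaluation for an algebra over `F` -/
def evF {S : Type u} [CommRing S] (f : F →+* S) (a' : Fin 6 → S) (ha' : ∀ i, f (a i) = a' i)
    (h11 : ∀ i, T i 1 * T i 1 = Cub.kA a + a 0 * T i 1 + a 1 * T i 2)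
    (h12 : ∀ i, T i 1 * T i 2 = Cub.kB a + a 2 * T i 1 + a 3 * T i 2)
    (h22 : ∀ i, T i 2 * T i 2 = Cub.kC a + a 4 * T i 1 + a 5 * T i 2) (i : Fin 3) :
    Cub S a' →+* S :=
  Cub.ev (f (T i 1)) (f (T i 2))
    (by
      have e : (fun i => f (a i)) = a' := funext ha'
      rw [← map_mul, h11 i, map_add, map_add, map_mul, map_mul, Cub.kA_map, e, ha', ha'])
    (by
      have e : (fun i => f (a i)) = a' := funext ha'
      rw [← map_mul, h12 i, map_add, map_add, map_mul, map_mul, Cub.kB_map, e, ha', ha'])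
    (by
      have e : (fun i => f (a i)) = a' := funext ha'
      rw [← map_mul, h22 i, map_add, map_add, map_mul, map_mul, Cub.kC_map, e, ha', ha'])

include hT0 hdet in
lemma ev_inj {S : Type u} [CommRing S] (f : F →+* S) (x0 x1 x2 y0 y1 y2 : S)
    (h : ∀ i, x0 + x1 * f (T i 1) + x2 * f (T i 2) = y0 + y1 * f (T i 1) + y2 * f (T i 2)) :
    x0 = y0 ∧ x1 = y1 ∧ x2 = y2 := by
  have hinv : T⁻¹ * T = 1 := Matrix.nonsing_inv_mul T (Ne.isUnit hdet)
  have hmap : (T⁻¹).map f * T.map f = 1 := by
    rw [← Matrix.map_mul, hinv, Matrix.map_one f (map_zero f) (map_one f)]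
  have key : ∀ z : Fin 3 → S, (T⁻¹).map f *ᵥ (fun i => z 0 + z 1 * f (T i 1) + z 2 * f (T i 2)) = z := by
    intro z
    have h1 : (fun i => z 0 + z 1 * f (T i 1) + z 2 * f (T i 2)) = T.map f *ᵥ z := by
      funext i
      simp only [Matrix.mulVec, dotProduct, Fin.sum_univ_three, Matrix.map_apply, hT0, map_one]
      ring
    rw [h1, Matrix.mulVec_mulVec, hmap, Matrix.one_mulVec]
  have h2 := key ![x0, x1, x2]
  have h3 := key ![y0, y1, y2]
  have h4 : (fun i => (![x0, x1, x2] : Fin 3 → S) 0 + (![x0, x1, x2] : Fin 3 → S) 1 * f (T i 1) +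
      (![x0, x1, x2] : Fin 3 → S) 2 * f (T i 2)) = (fun i => (![y0, y1, y2] : Fin 3 → S) 0 +
      (![y0, y1, y2] : Fin 3 → S) 1 * f (T i 1) + (![y0, y1, y2] : Fin 3 → S) 2 * f (T i 2)) := by
    funext i
    exact h i
  rw [h4] at h2
  have h5 := h2.symm.trans h3
  exact ⟨congrFun h5 0, congrFun h5 1, congrFun h5 2⟩

include hj hT0 hdet h11 h12 h22 hy in
/-- The injectivity of the comparison map, by base change to `F`. -/
theorem core_inj {P : Type u} [CommRing P] [Algebra k P] [Algebra P F] [Algebra P L]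
    [IsScalarTower k P F] [IsScalarTower k P L] (aX : Fin 6 → P)
    (haF : ∀ i, algebraMap P F (aX i) = a i)
    (G : UU k B aX →ₐ[P] L)
    (hG0 : ∀ b, G (Uhom k B aX b).c0 = y b 0) (hG1 : ∀ b, G (Uhom k B aX b).c1 = y b 1)
    (hG2 : ∀ b, G (Uhom k B aX b).c2 = y b 2)
    {Ut : Type u} [CommRing Ut] [Algebra P Ut] [Algebra k Ut] [IsScalarTower k P Ut]
    (inF : F →ₐ[P] Ut) (inU : UU k B aX →ₐ[P] Ut) (hinU : Function.Injective inU)
    (Gt : Ut →ₐ[P] L) (hGtU : ∀ x, Gt (inU x) = G x) (hGtF : ∀ x, Gt (inF x) = φ x)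
    (hspan : ∀ D : Subalgebra k Ut, (∀ x, inU x ∈ D) → (∀ x, inF x ∈ D) → D = ⊤)
    (hinj : Function.Injective (Algebra.TensorProduct.productMap γ φ)) :
    Function.Injective G := by
  classical
  have haUt : ∀ i, inF.toRingHom (a i) = aU aX Ut i := by
    intro i
    change inF (a i) = algebraMap P Ut (aX i)
    rw [← haF i]
    exact inF.commutes (aX i)
  let evt : Fin 3 → (Cub Ut (aU aX Ut) →+* Ut) := fun i =>
    evF T a inF.toRingHom (aU aX Ut) haUt h11 h12 h22 i
  have hevt : ∀ i x, evt i x = x.c0 + x.c1 * inF (T i 1) + x.c2 * inF (T i 2) :=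
    fun i x => rfl
  let yt : B →ₐ[k] Cub Ut (aU aX Ut) := (Cub.mapₐ inU).comp (Uhom k B aX)
  let ft : Fin 3 → (B →ₐ[k] Ut) := fun i =>
    { (evt i).comp yt.toRingHom with
      commutes' := by
        intro c
        change evt i (yt (algebraMap k B c)) = algebraMap k Ut c
        rw [AlgHom.commutes]
        change algebraMap k Ut c + 0 * _ + 0 * _ = _
        ring }
  have hft : ∀ i b, ft i b = inU (Uhom k B aX b).c0 + inU (Uhom k B aX b).c1 * inF (T i 1) +
      inU (Uhom k B aX b).c2 * inF (T i 2) := fun i b => rfl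
  obtain ⟨Ψ1, hΨ1⟩ := hj.lift Ut ft
  let Ψ2 : F →ₐ[k] Ut := inF.restrictScalars k
  let Ψ : R3 ⊗[k] F →ₐ[k] Ut := Algebra.TensorProduct.productMap Ψ1 Ψ2
  have hΨt : ∀ x z, Ψ (x ⊗ₜ z) = Ψ1 x * inF z := fun x z => rfl
  -- the composition
  have hcomp1 : (Gt.restrictScalars k).comp Ψ1 = γ := by
    apply hj.ext
    intro i b
    rw [AlgHom.comp_apply, hΨ1, hft]
    change Gt _ = _
    rw [map_add, map_add, map_mul, map_mul, hGtU, hGtU, hGtU, hGtF, hGtF, hG0, hG1, hG2]
    exact (hy b i).symm
  have hcomp : (Gt.restrictScalars k).comp Ψ = Algebra.TensorProduct.productMap γ φ := by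
    apply Algebra.TensorProduct.ext
    · apply AlgHom.ext
      intro r
      change Gt (Ψ (r ⊗ₜ 1)) = Algebra.TensorProduct.productMap γ φ (r ⊗ₜ 1)
      rw [hΨt, map_one, mul_one, Algebra.TensorProduct.productMap_apply_tmul, map_one, mul_one]
      exact congrArg (fun g : R3 →ₐ[k] L => g r) hcomp1
    · apply AlgHom.ext
      intro r
      change Gt (Ψ (1 ⊗ₜ r)) = Algebra.TensorProduct.productMap γ φ (1 ⊗ₜ r)
      rw [hΨt, map_one, one_mul, Algebra.TensorProduct.productMap_apply_tmul, map_one, one_mul]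
      exact hGtF r
  -- surjectivity of `Ψ`
  have hΨF : ∀ x, inF x ∈ Ψ.range := by
    intro x
    refine ⟨1 ⊗ₜ x, ?_⟩
    change Ψ (1 ⊗ₜ x) = _
    rw [hΨt, map_one, one_mul]
  have hΨft : ∀ i b, ft i b ∈ Ψ.range := by
    intro i b
    refine ⟨j i b ⊗ₜ 1, ?_⟩
    change Ψ (j i b ⊗ₜ 1) = _
    rw [hΨt, map_one, mul_one]
    exact hΨ1 i b
  have hinv : T⁻¹ * T = 1 := Matrix.nonsing_inv_mul T (Ne.isUnit hdet)
  have hmap : (T⁻¹).map inF * T.map inF = 1 := by
    have h0 : (T⁻¹).map inF.toRingHom * T.map inF.toRingHom = 1 := by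
      rw [← Matrix.map_mul, hinv, Matrix.map_one inF.toRingHom (map_zero _) (map_one _)]
    exact h0
  have hΨU : ∀ b, inU (Uhom k B aX b).c0 ∈ Ψ.range ∧ inU (Uhom k B aX b).c1 ∈ Ψ.range ∧
      inU (Uhom k B aX b).c2 ∈ Ψ.range := by
    intro b
    let e : Fin 3 → Ut := ![inU (Uhom k B aX b).c0, inU (Uhom k B aX b).c1,
      inU (Uhom k B aX b).c2]
    have he : T.map inF *ᵥ e = fun i => ft i b := by
      funext i
      rw [hft]
      simp only [Matrix.mulVec, dotProduct, Fin.sum_univ_three, Matrix.map_apply, hT0, map_one]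
      change 1 * inU (Uhom k B aX b).c0 + inF (T i 1) * inU (Uhom k B aX b).c1 +
        inF (T i 2) * inU (Uhom k B aX b).c2 = _
      ring
    have he2 : e = (T⁻¹).map inF *ᵥ fun i => ft i b := by
      rw [← he, Matrix.mulVec_mulVec, hmap, Matrix.one_mulVec]
    have he3 : ∀ l, e l ∈ Ψ.range := by
      intro l
      rw [he2]
      simp only [Matrix.mulVec, dotProduct, Fin.sum_univ_three, Matrix.map_apply]
      exact Ψ.range.add_mem (Ψ.range.add_mem (Ψ.range.mul_mem (hΨF _) (hΨft _ _))
        (Ψ.range.mul_mem (hΨF _) (hΨft _ _))) (Ψ.range.mul_mem (hΨF _) (hΨft _ _))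
    exact ⟨he3 0, he3 1, he3 2⟩
  have hΨU' : ∀ x, inU x ∈ Ψ.range := by
    let Tt : Subalgebra P (UU k B aX) :=
      { carrier := {x | inU x ∈ Ψ.range}
        mul_mem' := by
          intro x y hx hy
          change inU (x * y) ∈ Ψ.range
          rw [map_mul]
          exact Ψ.range.mul_mem hx hy
        add_mem' := by
          intro x y hx hy
          change inU (x + y) ∈ Ψ.range
          rw [map_add]
          exact Ψ.range.add_mem hx hy
        algebraMap_mem' := by
          intro p
          change inU (algebraMap P _ p) ∈ Ψ.range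
          rw [AlgHom.commutes, ← inF.commutes]
          exact hΨF _ }
    have hTt : Tt = ⊤ := Ugen (k := k) (B := B) (a := aX) Set.univ (Algebra.adjoin_univ k B) Tt
      (fun b _ => hΨU b)
    intro x
    have hx : x ∈ Tt := by rw [hTt]; trivial
    exact hx
  have hΨsurj : ∀ z : Ut, z ∈ Ψ.range := by
    intro z
    have h := hspan Ψ.range hΨU' hΨF
    rw [h]
    trivial
  rw [injective_iff_map_eq_zero]
  intro x hx
  obtain ⟨z, hz⟩ := hΨsurj (inU x)
  have h1 : Algebra.TensorProduct.productMap γ φ z = 0 := by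
    rw [← hcomp]
    change Gt (Ψ z) = 0
    have hz' : Ψ z = inU x := hz
    rw [hz', hGtU, hx]
  have h2 : z = 0 := hinj (by rw [h1, map_zero])
  have h3 : inU x = 0 := by
    rw [← hz, h2]
    exact map_zero _
  exact hinU (by rw [h3, map_zero])

include hj hT0 hdet h11 h12 h22 hy in
theorem core_struct [Algebra.Smooth k B] (ha : AlgebraicIndependent k a)
    (hinj : Function.Injective (Algebra.TensorProduct.productMap γ φ)) :
    ∃ G : UU k B (MvPolynomial.X : Fin 6 → MvPolynomial (Fin 6) k) →ₐ[k] L,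
      Function.Injective G ∧ G.range = Algebra.adjoin k
        (Set.range (fun i => φ (a i)) ∪ {z : L | ∃ b i, z = y b i}) ∧
      (∀ b, G (Uhom k B MvPolynomial.X b).c0 = y b 0 ∧ G (Uhom k B MvPolynomial.X b).c1 = y b 1 ∧
        G (Uhom k B MvPolynomial.X b).c2 = y b 2) ∧
      ∀ i, G (algebraMap (MvPolynomial (Fin 6) k) _ (MvPolynomial.X i)) = φ (a i) := by
  classical
  let P := MvPolynomial (Fin 6) k
  let algPF : P →ₐ[k] F := MvPolynomial.aeval a
  have hPF : Function.Injective algPF := ha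
  letI : Algebra P F := algPF.toRingHom.toAlgebra
  letI : Algebra P L := (φ.comp algPF).toRingHom.toAlgebra
  haveI : IsScalarTower k P F := IsScalarTower.of_algebraMap_eq fun r => (algPF.commutes r).symm
  haveI : IsScalarTower k P L := IsScalarTower.of_algebraMap_eq fun r =>
    ((φ.comp algPF).commutes r).symm
  let aX : Fin 6 → P := MvPolynomial.X
  have haF : ∀ i, algebraMap P F (aX i) = a i := fun i => MvPolynomial.aeval_X a i
  have haL : ∀ i, algebraMap P L (aX i) = φ (a i) := fun i => congrArg φ (haF i)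
  let φP : F →ₐ[P] L :=
    { φ.toRingHom with
      commutes' := fun p => rfl }
  -- the homomorphism from `B` to the cubic algebra over `L`
  let evL : Fin 3 → (Cub L (aU aX L) →+* L) := fun i =>
    evF T a φ.toRingHom (aU aX L) (fun i => (haL i).symm) h11 h12 h22 i
  have hevL : ∀ i x, evL i x = x.c0 + x.c1 * φ (T i 1) + x.c2 * φ (T i 2) := fun i x => rfl
  have evL_ext : ∀ x x' : Cub L (aU aX L), (∀ i, evL i x = evL i x') → x = x' := by
    intro x x' h
    obtain ⟨e0, e1, e2⟩ := ev_inj T hT0 hdet φ.toRingHom x.c0 x.c1 x.c2 x'.c0 x'.c1 x'.c2 h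
    ext
    · exact e0
    · exact e1
    · exact e2
  have evL_y : ∀ b i, evL i ⟨y b 0, y b 1, y b 2⟩ = γ (j i b) := fun b i => (hy b i).symm
  have evL_alg : ∀ (c : k) i, evL i (algebraMap k _ c) = algebraMap k L c := by
    intro c i
    change algebraMap k L c + 0 * _ + 0 * _ = _
    ring
  let fL : B →ₐ[k] Cub L (aU aX L) :=
    { toFun := fun b => ⟨y b 0, y b 1, y b 2⟩
      map_one' := by
        apply evL_ext
        intro i
        rw [evL_y, map_one, map_one, map_one]
      map_mul' := by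
        intro b b'
        apply evL_ext
        intro i
        rw [map_mul, evL_y, evL_y, evL_y, map_mul, map_mul]
      map_zero' := by
        apply evL_ext
        intro i
        rw [evL_y, map_zero, map_zero, map_zero]
      map_add' := by
        intro b b'
        apply evL_ext
        intro i
        rw [map_add, evL_y, evL_y, evL_y, map_add, map_add]
      commutes' := by
        intro c
        apply evL_ext
        intro i
        rw [evL_y, evL_alg, AlgHom.commutes, AlgHom.commutes] }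
  obtain ⟨G, hG⟩ := Ulift fL
  have hG0 : ∀ b, G (Uhom k B aX b).c0 = y b 0 := fun b => (hG b).1
  have hG1 : ∀ b, G (Uhom k B aX b).c1 = y b 1 := fun b => (hG b).2.1
  have hG2 : ∀ b, G (Uhom k B aX b).c2 = y b 2 := fun b => (hG b).2.2
  have hsm : Algebra.Smooth P (UU k B aX) := UU_smooth
  -- injectivity
  have hGinj : Function.Injective G := by
    have hinU : Function.Injective
        (Algebra.TensorProduct.includeLeft : UU k B aX →ₐ[P] UU k B aX ⊗[P] F) :=
      Algebra.TensorProduct.includeLeft_injective (S := P) hPF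
    refine core_inj hj φ γ T hT0 hdet a h11 h12 h22 y hy aX haF G hG0 hG1 hG2
      (Ut := UU k B aX ⊗[P] F) (Algebra.TensorProduct.includeRight : F →ₐ[P] UU k B aX ⊗[P] F)
      (Algebra.TensorProduct.includeLeft : UU k B aX →ₐ[P] UU k B aX ⊗[P] F)
      hinU (Algebra.TensorProduct.productMap G φP) ?_ ?_ ?_ hinj
    · intro x
      change Algebra.TensorProduct.productMap G φP (x ⊗ₜ 1) = _
      rw [Algebra.TensorProduct.productMap_apply_tmul, map_one, mul_one]
    · intro x
      change Algebra.TensorProduct.productMap G φP (1 ⊗ₜ x) = _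
      rw [Algebra.TensorProduct.productMap_apply_tmul, map_one, one_mul]
      rfl
    · intro D h1 h2
      rw [eq_top_iff]
      rintro z -
      induction z using TensorProduct.induction_on with
      | zero => exact D.zero_mem
      | tmul x f =>
        have h3 : x ⊗ₜ[P] f = (x ⊗ₜ[P] (1 : F)) * ((1 : UU k B aX) ⊗ₜ[P] f) := by
          rw [Algebra.TensorProduct.tmul_mul_tmul, mul_one, one_mul]
        rw [h3]
        exact D.mul_mem (h1 x) (h2 f)
      | add x y hx hy => exact D.add_mem hx hy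
  -- the image
  have hrange : (G.restrictScalars k).range = Algebra.adjoin k
      (Set.range (fun i => φ (a i)) ∪ {z : L | ∃ b i, z = y b i}) := by
    apply le_antisymm
    · let D := Algebra.adjoin k (Set.range (fun i => φ (a i)) ∪ {z : L | ∃ b i, z = y b i})
      have hy' : ∀ b i, y b i ∈ D := fun b i => Algebra.subset_adjoin (Or.inr ⟨b, i, rfl⟩)
      have ha' : ∀ i, φ (a i) ∈ D := fun i => Algebra.subset_adjoin (Or.inl ⟨i, rfl⟩)
      have hP : ∀ p : P, algebraMap P L p ∈ D := by
        intro p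
        induction p using MvPolynomial.induction_on with
        | C r =>
          change algebraMap P L (algebraMap k P r) ∈ D
          rw [← IsScalarTower.algebraMap_apply]
          exact D.algebraMap_mem r
        | add p q hp hq =>
          rw [map_add]
          exact D.add_mem hp hq
        | mul_X p i hp =>
          rw [map_mul]
          refine D.mul_mem hp ?_
          change algebraMap P L (aX i) ∈ D
          rw [haL]
          exact ha' i
      let Tt : Subalgebra P (UU k B aX) :=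
        { carrier := {x | G x ∈ D}
          mul_mem' := by
            intro x y hx hy
            change G (x * y) ∈ D
            rw [map_mul]
            exact D.mul_mem hx hy
          add_mem' := by
            intro x y hx hy
            change G (x + y) ∈ D
            rw [map_add]
            exact D.add_mem hx hy
          algebraMap_mem' := by
            intro p
            change G (algebraMap P _ p) ∈ D
            rw [AlgHom.commutes]
            exact hP p }
      have hTt : Tt = ⊤ := by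
        refine Ugen (k := k) (B := B) (a := aX) Set.univ (Algebra.adjoin_univ k B) Tt ?_
        intro b _
        refine ⟨?_, ?_, ?_⟩
        · change G _ ∈ D
          rw [hG0]
          exact hy' b 0
        · change G _ ∈ D
          rw [hG1]
          exact hy' b 1
        · change G _ ∈ D
          rw [hG2]
          exact hy' b 2
      rintro _ ⟨x, rfl⟩
      have hx : x ∈ Tt := by rw [hTt]; trivial
      exact hx
    · rw [Algebra.adjoin_le_iff]
      rintro z (⟨i, rfl⟩ | ⟨b, i, rfl⟩)
      · refine ⟨algebraMap P _ (aX i), ?_⟩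
        change G (algebraMap P _ (aX i)) = _
        rw [AlgHom.commutes]
        exact haL i
      · fin_cases i
        · exact ⟨_, hG0 b⟩
        · exact ⟨_, hG1 b⟩
        · exact ⟨_, hG2 b⟩
  refine ⟨G.restrictScalars k, hGinj, hrange, fun b => ⟨hG0 b, hG1 b, hG2 b⟩, fun i => ?_⟩
  change G (algebraMap P _ (aX i)) = _
  rw [AlgHom.commutes]
  exact haL i

include hj hT0 hdet h11 h12 h22 hy in
theorem core_smooth [Algebra.Smooth k B] (ha : AlgebraicIndependent k a)
    (hinj : Function.Injective (Algebra.TensorProduct.productMap γ φ)) :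
    Algebra.Smooth k (Algebra.adjoin k
      (Set.range (fun i => φ (a i)) ∪ {z : L | ∃ b i, z = y b i})) := by
  obtain ⟨G, hG, hr, -⟩ := core_struct hj φ γ T hT0 hdet a h11 h12 h22 y hy ha hinj
  have hPsm : Algebra.Smooth k (MvPolynomial (Fin 6) k) := ⟨inferInstance, inferInstance⟩
  have hsmk : Algebra.Smooth k (UU k B (MvPolynomial.X : Fin 6 → MvPolynomial (Fin 6) k)) :=
    UU_smooth_base
  rw [← hr]
  exact Algebra.Smooth.of_equiv (AlgEquiv.ofInjective G hG)

end core

end Pool.Agent.H413.RS
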