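import Mathlib

set_option autoImplicit false

universe u v w

namespace Pool.Agent.H413.RS

/-- The free module `S e₀ ⊕ S e₁ ⊕ S e₂` with the cubic algebra structure given by the
six structure constants `a`: `e₀ = 1`, `e₁ ^ 2 = a₀' + a 0 e₁ + a 1 e₂`,
`e₁ e₂ = b₀' + a 2 e₁ + a 3 e₂`, `e₂ ^ 2 = c₀' + a 4 e₁ + a 5 e₂`. -/
@[ext] structure Cub (S : Type u) (a : Fin 6 → S) where
  c0 : S
  c1 : S
  c2 : S

namespace Cub

variable {S : Type u} [CommRing S] {a : Fin 6 → S}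

def kA (a : Fin 6 → S) : S := a 2 * a 1 + a 3 * a 3 - a 0 * a 3 - a 1 * a 5
def kB (a : Fin 6 → S) : S := a 1 * a 4 - a 2 * a 3
def kC (a : Fin 6 → S) : S := a 2 * a 2 + a 3 * a 4 - a 4 * a 0 - a 5 * a 2

instance : Zero (Cub S a) := ⟨⟨0, 0, 0⟩⟩
instance : One (Cub S a) := ⟨⟨1, 0, 0⟩⟩
instance : Add (Cub S a) := ⟨fun x y => ⟨x.c0 + y.c0, x.c1 + y.c1, x.c2 + y.c2⟩⟩
instance : Neg (Cub S a) := ⟨fun x => ⟨-x.c0, -x.c1, -x.c2⟩⟩
instance : Mul (Cub S a) := ⟨fun x y =>
  ⟨x.c0 * y.c0 + x.c1 * y.c1 * kA a + (x.c1 * y.c2 + x.c2 * y.c1) * kB a + x.c2 * y.c2 * kC a,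
   x.c0 * y.c1 + x.c1 * y.c0 + x.c1 * y.c1 * a 0 + (x.c1 * y.c2 + x.c2 * y.c1) * a 2 +
     x.c2 * y.c2 * a 4,
   x.c0 * y.c2 + x.c2 * y.c0 + x.c1 * y.c1 * a 1 + (x.c1 * y.c2 + x.c2 * y.c1) * a 3 +
     x.c2 * y.c2 * a 5⟩⟩

@[simp] lemma zero_c0 : (0 : Cub S a).c0 = 0 := rfl
@[simp] lemma zero_c1 : (0 : Cub S a).c1 = 0 := rfl
@[simp] lemma zero_c2 : (0 : Cub S a).c2 = 0 := rfl
@[simp] lemma one_c0 : (1 : Cub S a).c0 = 1 := rfl
@[simp] lemma one_c1 : (1 : Cub S a).c1 = 0 := rfl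
@[simp] lemma one_c2 : (1 : Cub S a).c2 = 0 := rfl
@[simp] lemma add_c0 (x y : Cub S a) : (x + y).c0 = x.c0 + y.c0 := rfl
@[simp] lemma add_c1 (x y : Cub S a) : (x + y).c1 = x.c1 + y.c1 := rfl
@[simp] lemma add_c2 (x y : Cub S a) : (x + y).c2 = x.c2 + y.c2 := rfl
@[simp] lemma neg_c0 (x : Cub S a) : (-x).c0 = -x.c0 := rfl
@[simp] lemma neg_c1 (x : Cub S a) : (-x).c1 = -x.c1 := rfl
@[simp] lemma neg_c2 (x : Cub S a) : (-x).c2 = -x.c2 := rfl
@[simp] lemma mul_c0 (x y : Cub S a) : (x * y).c0 = x.c0 * y.c0 + x.c1 * y.c1 * kA a +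
    (x.c1 * y.c2 + x.c2 * y.c1) * kB a + x.c2 * y.c2 * kC a := rfl
@[simp] lemma mul_c1 (x y : Cub S a) : (x * y).c1 = x.c0 * y.c1 + x.c1 * y.c0 +
    x.c1 * y.c1 * a 0 + (x.c1 * y.c2 + x.c2 * y.c1) * a 2 + x.c2 * y.c2 * a 4 := rfl
@[simp] lemma mul_c2 (x y : Cub S a) : (x * y).c2 = x.c0 * y.c2 + x.c2 * y.c0 +
    x.c1 * y.c1 * a 1 + (x.c1 * y.c2 + x.c2 * y.c1) * a 3 + x.c2 * y.c2 * a 5 := rfl

instance : CommRing (Cub S a) where
  add_assoc x y z := by ext <;> simp [add_assoc]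
  zero_add x := by ext <;> simp
  add_zero x := by ext <;> simp
  nsmul := nsmulRec
  add_comm x y := by ext <;> simp [add_comm]
  left_distrib x y z := by ext <;> simp <;> ring
  right_distrib x y z := by ext <;> simp <;> ring
  zero_mul x := by ext <;> simp
  mul_zero x := by ext <;> simp
  mul_assoc x y z := by
    ext
    · simp only [mul_c0, mul_c1, mul_c2, kA, kB, kC]; ring
    · simp only [mul_c0, mul_c1, mul_c2, kA, kB, kC]; ring
    · simp only [mul_c0, mul_c1, mul_c2, kA, kB, kC]; ring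
  one_mul x := by ext <;> simp
  mul_one x := by ext <;> simp
  zsmul := zsmulRec
  neg_add_cancel x := by ext <;> simp
  mul_comm x y := by ext <;> simp <;> ring

@[simp] lemma sub_c0 (x y : Cub S a) : (x - y).c0 = x.c0 - y.c0 := by
  rw [sub_eq_add_neg, add_c0, neg_c0, sub_eq_add_neg]
@[simp] lemma sub_c1 (x y : Cub S a) : (x - y).c1 = x.c1 - y.c1 := by
  rw [sub_eq_add_neg, add_c1, neg_c1, sub_eq_add_neg]
@[simp] lemma sub_c2 (x y : Cub S a) : (x - y).c2 = x.c2 - y.c2 := by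
  rw [sub_eq_add_neg, add_c2, neg_c2, sub_eq_add_neg]

/-- The inclusion of the scalars. -/
def inc : S →+* Cub S a where
  toFun s := ⟨s, 0, 0⟩
  map_one' := rfl
  map_mul' x y := by ext <;> simp
  map_zero' := rfl
  map_add' x y := by ext <;> simp

instance {k : Type v} [CommRing k] [Algebra k S] : Algebra k (Cub S a) :=
  (inc.comp (algebraMap k S)).toAlgebra

lemma algebraMap_eq {k : Type v} [CommRing k] [Algebra k S] (c : k) :
    algebraMap k (Cub S a) c = ⟨algebraMap k S c, 0, 0⟩ := rfl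

/-- Functoriality of the cubic algebra. -/
def map {S' : Type w} [CommRing S'] {a' : Fin 6 → S'} (f : S →+* S')
    (h : ∀ i, f (a i) = a' i) : Cub S a →+* Cub S' a' where
  toFun x := ⟨f x.c0, f x.c1, f x.c2⟩
  map_one' := by ext <;> simp
  map_mul' x y := by
    ext
    · simp only [mul_c0, map_add, map_mul, map_sub, kA, kB, kC, h]
    · simp only [mul_c1, map_add, map_mul, map_sub, kA, kB, kC, h]
    · simp only [mul_c2, map_add, map_mul, map_sub, kA, kB, kC, h]
  map_zero' := by ext <;> simp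
  map_add' x y := by ext <;> simp

@[simp] lemma map_c0 {S' : Type w} [CommRing S'] {a' : Fin 6 → S'} (f : S →+* S')
    (h : ∀ i, f (a i) = a' i) (x : Cub S a) : (map f h x).c0 = f x.c0 := rfl
@[simp] lemma map_c1 {S' : Type w} [CommRing S'] {a' : Fin 6 → S'} (f : S →+* S')
    (h : ∀ i, f (a i) = a' i) (x : Cub S a) : (map f h x).c1 = f x.c1 := rfl
@[simp] lemma map_c2 {S' : Type w} [CommRing S'] {a' : Fin 6 → S'} (f : S →+* S')
    (h : ∀ i, f (a i) = a' i) (x : Cub S a) : (map f h x).c2 = f x.c2 := rfl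

end Cub

section univ

variable (k : Type u) {P : Type u} (B : Type u) [CommRing k] [CommRing P] [Algebra k P]
  [CommRing B] [Algebra k B] (a : Fin 6 → P)

/-- The polynomial ring on the coordinates of the universal homomorphism. -/
abbrev UQ (P B : Type u) [CommRing P] : Type u := MvPolynomial (B × Fin 3) P

abbrev aU (S : Type u) [CommRing S] [Algebra P S] : Fin 6 → S := fun i => algebraMap P S (a i)

noncomputable def Ygen (b : B) : Cub (UQ P B) (aU a (UQ P B)) :=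
  ⟨MvPolynomial.X (b, 0), MvPolynomial.X (b, 1), MvPolynomial.X (b, 2)⟩

/-- The relations. -/
def URel : Set (UQ P B) :=
  {q | (∃ b b' : B, ∃ z : Cub (UQ P B) (aU a (UQ P B)),
      z = Ygen B a (b + b') - (Ygen B a b + Ygen B a b') ∧ (q = z.c0 ∨ q = z.c1 ∨ q = z.c2)) ∨
    (∃ b b' : B, ∃ z : Cub (UQ P B) (aU a (UQ P B)),
      z = Ygen B a (b * b') - (Ygen B a b * Ygen B a b') ∧ (q = z.c0 ∨ q = z.c1 ∨ q = z.c2)) ∨
    (∃ c : k, ∃ z : Cub (UQ P B) (aU a (UQ P B)),
      z = Ygen B a (algebraMap k B c) - algebraMap k _ c ∧ (q = z.c0 ∨ q = z.c1 ∨ q = z.c2))}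

/-- The universal algebra. -/
abbrev UU : Type u := UQ P B ⧸ Ideal.span (URel k B a)

/-- Reduction modulo the relations. -/
noncomputable def Ured : Cub (UQ P B) (aU a (UQ P B)) →+* Cub (UU k B a) (aU a (UU k B a)) :=
  Cub.map (Ideal.Quotient.mk (Ideal.span (URel k B a))) (fun i => rfl)

lemma Ured_sub (x y : Cub (UQ P B) (aU a (UQ P B)))
    (h : ∀ q, (q = (x - y).c0 ∨ q = (x - y).c1 ∨ q = (x - y).c2) → q ∈ URel k B a) :
    Ured k B a x = Ured k B a y := by
  rw [← sub_eq_zero, ← map_sub]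
  ext
  · change Ideal.Quotient.mk _ _ = 0
    rw [Ideal.Quotient.eq_zero_iff_mem]
    exact Ideal.subset_span (h _ (Or.inl rfl))
  · change Ideal.Quotient.mk _ _ = 0
    rw [Ideal.Quotient.eq_zero_iff_mem]
    exact Ideal.subset_span (h _ (Or.inr (Or.inl rfl)))
  · change Ideal.Quotient.mk _ _ = 0
    rw [Ideal.Quotient.eq_zero_iff_mem]
    exact Ideal.subset_span (h _ (Or.inr (Or.inr rfl)))

lemma Ured_add (b b' : B) : Ured k B a (Ygen B a (b + b')) =
    Ured k B a (Ygen B a b) + Ured k B a (Ygen B a b') := by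
  rw [← map_add]
  exact Ured_sub k B a _ _ fun q hq => Or.inl ⟨b, b', _, rfl, hq⟩

lemma Ured_mul (b b' : B) : Ured k B a (Ygen B a (b * b')) =
    Ured k B a (Ygen B a b) * Ured k B a (Ygen B a b') := by
  rw [← map_mul]
  exact Ured_sub k B a _ _ fun q hq => Or.inr (Or.inl ⟨b, b', _, rfl, hq⟩)

lemma Ured_alg (c : k) : Ured k B a (Ygen B a (algebraMap k B c)) =
    algebraMap k (Cub (UU k B a) (aU a (UU k B a))) c := by
  have h : Ured k B a (algebraMap k _ c) = algebraMap k (Cub (UU k B a) (aU a (UU k B a))) c := by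
    ext
    · rfl
    · exact map_zero _
    · exact map_zero _
  rw [← h]
  exact Ured_sub k B a _ _ fun q hq => Or.inr (Or.inr ⟨c, _, rfl, hq⟩)

/-- The universal homomorphism. -/
noncomputable def Uhom : B →ₐ[k] Cub (UU k B a) (aU a (UU k B a)) where
  toFun b := Ured k B a (Ygen B a b)
  map_one' := by
    have h := Ured_alg k B a 1
    rw [map_one, map_one] at h
    exact h
  map_mul' := Ured_mul k B a
  map_zero' := by
    have h := Ured_alg k B a 0
    rw [map_zero, map_zero] at h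
    exact h
  map_add' := Ured_add k B a
  commutes' := Ured_alg k B a

lemma Uhom_apply (b : B) : Uhom k B a b = ⟨Ideal.Quotient.mk _ (MvPolynomial.X (b, 0)),
    Ideal.Quotient.mk _ (MvPolynomial.X (b, 1)), Ideal.Quotient.mk _ (MvPolynomial.X (b, 2))⟩ := rfl

variable {k B a}

/-- The universal property. -/
theorem Ulift {S : Type u} [CommRing S] [Algebra P S] [Algebra k S] [IsScalarTower k P S]
    (f : B →ₐ[k] Cub S (aU a S)) : ∃ F : UU k B a →ₐ[P] S,
      ∀ b, F (Uhom k B a b).c0 = (f b).c0 ∧ F (Uhom k B a b).c1 = (f b).c1 ∧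
        F (Uhom k B a b).c2 = (f b).c2 := by
  classical
  let F0 : UQ P B →ₐ[P] S := MvPolynomial.aeval (fun p : B × Fin 3 =>
    if p.2 = 0 then (f p.1).c0 else if p.2 = 1 then (f p.1).c1 else (f p.1).c2)
  have e0 : ∀ b, F0 (MvPolynomial.X (b, 0)) = (f b).c0 := fun b => by
    simp [F0]
  have e1 : ∀ b, F0 (MvPolynomial.X (b, 1)) = (f b).c1 := fun b => by
    simp [F0]
  have e2 : ∀ b, F0 (MvPolynomial.X (b, 2)) = (f b).c2 := fun b => by
    simp [F0]
  let G : Cub (UQ P B) (aU a (UQ P B)) →+* Cub S (aU a S) :=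
    Cub.map F0.toRingHom (fun i => F0.commutes (a i))
  have hG : ∀ b, G (Ygen B a b) = f b := by
    intro b
    ext
    · exact e0 b
    · exact e1 b
    · exact e2 b
  have hGc : ∀ c : k, G (algebraMap k _ c) = algebraMap k _ c := by
    intro c
    ext
    · change F0 (algebraMap k _ c) = algebraMap k S c
      rw [IsScalarTower.algebraMap_apply k P (UQ P B), F0.commutes,
        ← IsScalarTower.algebraMap_apply]
    · exact map_zero _
    · exact map_zero _
  have key : ∀ z : Cub (UQ P B) (aU a (UQ P B)), G z = 0 → ∀ q, (q = z.c0 ∨ q = z.c1 ∨ q = z.c2) →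
      F0 q = 0 := by
    rintro z hz q (rfl | rfl | rfl)
    · exact congrArg Cub.c0 hz
    · exact congrArg Cub.c1 hz
    · exact congrArg Cub.c2 hz
  have hI : ∀ q ∈ Ideal.span (URel k B a), F0 q = 0 := by
    intro q hq
    have hle : Ideal.span (URel k B a) ≤ RingHom.ker F0.toRingHom := by
      rw [Ideal.span_le]
      rintro q (⟨b, b', z, hz, hq⟩ | ⟨b, b', z, hz, hq⟩ | ⟨c, z, hz, hq⟩)
      · refine key z ?_ q hq
        rw [hz, map_sub, map_add, hG, hG, hG, map_add, sub_self]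
      · refine key z ?_ q hq
        rw [hz, map_sub, map_mul, hG, hG, hG, map_mul, sub_self]
      · refine key z ?_ q hq
        rw [hz, map_sub, hG, hGc, AlgHom.commutes, sub_self]
    exact hle hq
  refine ⟨Ideal.Quotient.liftₐ _ F0 hI, fun b => ⟨?_, ?_, ?_⟩⟩
  · exact e0 b
  · exact e1 b
  · exact e2 b

/-- The universal algebra is generated by the coordinates of the universal homomorphism at
generators of `B`. -/
theorem Ugen (s : Set B) (hs : Algebra.adjoin k s = ⊤) (T : Subalgebra P (UU k B a))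
    (hT : ∀ b ∈ s, (Uhom k B a b).c0 ∈ T ∧ (Uhom k B a b).c1 ∈ T ∧ (Uhom k B a b).c2 ∈ T) :
    T = ⊤ := by
  have hT' : ∀ b : B, (Uhom k B a b).c0 ∈ T ∧ (Uhom k B a b).c1 ∈ T ∧ (Uhom k B a b).c2 ∈ T := by
    intro b
    have hb : b ∈ Algebra.adjoin k s := by rw [hs]; trivial
    have ha : ∀ i, aU a (UU k B a) i ∈ T := fun i => T.algebraMap_mem _
    have hkA : Cub.kA (aU a (UU k B a)) ∈ T :=
      T.sub_mem (T.sub_mem (T.add_mem (T.mul_mem (ha _) (ha _)) (T.mul_mem (ha _) (ha _)))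
        (T.mul_mem (ha _) (ha _))) (T.mul_mem (ha _) (ha _))
    have hkB : Cub.kB (aU a (UU k B a)) ∈ T :=
      T.sub_mem (T.mul_mem (ha _) (ha _)) (T.mul_mem (ha _) (ha _))
    have hkC : Cub.kC (aU a (UU k B a)) ∈ T :=
      T.sub_mem (T.sub_mem (T.add_mem (T.mul_mem (ha _) (ha _)) (T.mul_mem (ha _) (ha _)))
        (T.mul_mem (ha _) (ha _))) (T.mul_mem (ha _) (ha _))
    induction hb using Algebra.adjoin_induction with
    | mem x hx => exact hT x hx
    | algebraMap r =>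
      rw [AlgHom.commutes]
      refine ⟨?_, T.zero_mem, T.zero_mem⟩
      change algebraMap k (UU k B a) r ∈ T
      rw [IsScalarTower.algebraMap_apply k P (UU k B a)]
      exact T.algebraMap_mem _
    | add x y _ _ hx hy =>
      rw [map_add]
      exact ⟨T.add_mem hx.1 hy.1, T.add_mem hx.2.1 hy.2.1, T.add_mem hx.2.2 hy.2.2⟩
    | mul x y _ _ hx hy =>
      rw [map_mul]
      obtain ⟨x0, x1, x2⟩ := hx
      obtain ⟨y0, y1, y2⟩ := hy
      refine ⟨?_, ?_, ?_⟩
      · rw [Cub.mul_c0]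
        exact T.add_mem (T.add_mem (T.add_mem (T.mul_mem x0 y0) (T.mul_mem (T.mul_mem x1 y1) hkA))
          (T.mul_mem (T.add_mem (T.mul_mem x1 y2) (T.mul_mem x2 y1)) hkB))
          (T.mul_mem (T.mul_mem x2 y2) hkC)
      · rw [Cub.mul_c1]
        exact T.add_mem (T.add_mem (T.add_mem (T.add_mem (T.mul_mem x0 y1) (T.mul_mem x1 y0))
          (T.mul_mem (T.mul_mem x1 y1) (ha 0)))
          (T.mul_mem (T.add_mem (T.mul_mem x1 y2) (T.mul_mem x2 y1)) (ha 2)))
          (T.mul_mem (T.mul_mem x2 y2) (ha 4))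
      · rw [Cub.mul_c2]
        exact T.add_mem (T.add_mem (T.add_mem (T.add_mem (T.mul_mem x0 y2) (T.mul_mem x2 y0))
          (T.mul_mem (T.mul_mem x1 y1) (ha 1)))
          (T.mul_mem (T.add_mem (T.mul_mem x1 y2) (T.mul_mem x2 y1)) (ha 3)))
          (T.mul_mem (T.mul_mem x2 y2) (ha 5))
  rw [eq_top_iff]
  rintro x -
  obtain ⟨q, rfl⟩ := Ideal.Quotient.mk_surjective x
  induction q using MvPolynomial.induction_on with
  | C r => exact T.algebraMap_mem r
  | add p q hp hq =>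
    rw [map_add]
    exact T.add_mem hp hq
  | mul_X p i hp =>
    rw [map_mul]
    refine T.mul_mem hp ?_
    obtain ⟨b, i⟩ := i
    fin_cases i
    · exact (hT' b).1
    · exact (hT' b).2.1
    · exact (hT' b).2.2

end univ

end Pool.Agent.H413.RS
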