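import Pool.Agent.H413.RS.Cub

set_option autoImplicit false

universe u v w

namespace Pool.Agent.H413.RS

variable {k P B : Type u} [CommRing k] [CommRing P] [Algebra k P]
  [CommRing B] [Algebra k B] {a : Fin 6 → P}

theorem Uext {S : Type u} [CommRing S] [Algebra P S] (F G : UU k B a →ₐ[P] S)
    (h : ∀ b, F (Uhom k B a b).c0 = G (Uhom k B a b).c0 ∧ F (Uhom k B a b).c1 =
      G (Uhom k B a b).c1 ∧ F (Uhom k B a b).c2 = G (Uhom k B a b).c2) : F = G := by
  have h2 : AlgHom.equalizer F G = ⊤ := by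
    refine Ugen (k := k) (B := B) (a := a) Set.univ (Algebra.adjoin_univ k B) _ ?_
    intro b _
    exact h b
  apply AlgHom.ext
  intro x
  have hx : x ∈ AlgHom.equalizer F G := by rw [h2]; trivial
  exact hx

/-- The homomorphism of cubic algebras induced by an algebra homomorphism. -/
noncomputable def Cub.mapₐ {S S' : Type u} [CommRing S] [CommRing S'] [Algebra P S]
    [Algebra P S'] [Algebra k S] [Algebra k S'] [IsScalarTower k P S] [IsScalarTower k P S']
    (f : S →ₐ[P] S') : Cub S (aU a S) →ₐ[k] Cub S' (aU a S') :=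
  { Cub.map (a := aU a S) (a' := aU a S') f.toRingHom (fun i => f.commutes (a i)) with
    commutes' := by
      intro c
      ext
      · change f (algebraMap k S c) = algebraMap k S' c
        rw [IsScalarTower.algebraMap_apply k P S, f.commutes, ← IsScalarTower.algebraMap_apply]
      · exact map_zero f
      · exact map_zero f }

theorem UU_formallySmooth [Algebra.FormallySmooth k B] :
    Algebra.FormallySmooth P (UU k B a) := by
  rw [Algebra.FormallySmooth.iff_comp_surjective]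
  intro S _ _ I hI f
  letI : Algebra k S := ((algebraMap P S).comp (algebraMap k P)).toAlgebra
  haveI : IsScalarTower k P S := IsScalarTower.of_algebraMap_eq' rfl
  haveI : IsScalarTower k P (S ⧸ I) := IsScalarTower.of_algebraMap_eq' rfl
  let g : Cub S (aU a S) →ₐ[k] Cub (S ⧸ I) (aU a (S ⧸ I)) := Cub.mapₐ (Ideal.Quotient.mkₐ P I)
  have hg : Function.Surjective g := by
    intro x
    obtain ⟨y0, h0⟩ := Ideal.Quotient.mk_surjective x.c0
    obtain ⟨y1, h1⟩ := Ideal.Quotient.mk_surjective x.c1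
    obtain ⟨y2, h2⟩ := Ideal.Quotient.mk_surjective x.c2
    refine ⟨⟨y0, y1, y2⟩, ?_⟩
    ext
    · exact h0
    · exact h1
    · exact h2
  have hker : IsNilpotent (RingHom.ker (g : Cub S (aU a S) →+* Cub (S ⧸ I) (aU a (S ⧸ I)))) := by
    refine ⟨2, ?_⟩
    rw [pow_two, Ideal.zero_eq_bot, eq_bot_iff, Ideal.mul_le]
    intro x hx y hy
    have hx0 : x.c0 ∈ I := Ideal.Quotient.eq_zero_iff_mem.1 (congrArg Cub.c0 hx)
    have hx1 : x.c1 ∈ I := Ideal.Quotient.eq_zero_iff_mem.1 (congrArg Cub.c1 hx)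
    have hx2 : x.c2 ∈ I := Ideal.Quotient.eq_zero_iff_mem.1 (congrArg Cub.c2 hx)
    have hy0 : y.c0 ∈ I := Ideal.Quotient.eq_zero_iff_mem.1 (congrArg Cub.c0 hy)
    have hy1 : y.c1 ∈ I := Ideal.Quotient.eq_zero_iff_mem.1 (congrArg Cub.c1 hy)
    have hy2 : y.c2 ∈ I := Ideal.Quotient.eq_zero_iff_mem.1 (congrArg Cub.c2 hy)
    have hm : ∀ s ∈ I, ∀ t ∈ I, s * t = 0 := by
      intro s hs t ht
      have h : s * t ∈ I ^ 2 := by rw [pow_two]; exact Ideal.mul_mem_mul hs ht
      rw [hI] at h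
      exact h
    rw [Ideal.mem_bot]
    ext
    · rw [Cub.mul_c0, hm _ hx0 _ hy0, hm _ hx1 _ hy1, hm _ hx1 _ hy2, hm _ hx2 _ hy1,
        hm _ hx2 _ hy2]
      simp
    · rw [Cub.mul_c1, hm _ hx0 _ hy1, hm _ hx1 _ hy0, hm _ hx1 _ hy1, hm _ hx1 _ hy2,
        hm _ hx2 _ hy1, hm _ hx2 _ hy2]
      simp
    · rw [Cub.mul_c2, hm _ hx0 _ hy2, hm _ hx2 _ hy0, hm _ hx1 _ hy1, hm _ hx1 _ hy2,
        hm _ hx2 _ hy1, hm _ hx2 _ hy2]
      simp
  let fB : B →ₐ[k] Cub (S ⧸ I) (aU a (S ⧸ I)) := (Cub.mapₐ f).comp (Uhom k B a)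
  let L : B →ₐ[k] Cub S (aU a S) := Algebra.FormallySmooth.liftOfSurjective fB g hg hker
  have hL : ∀ b, g (L b) = fB b := fun b =>
    Algebra.FormallySmooth.liftOfSurjective_apply fB g hg hker b
  obtain ⟨F, hF⟩ := Ulift L
  refine ⟨F, ?_⟩
  apply Uext
  intro b
  have h := hL b
  refine ⟨?_, ?_, ?_⟩
  · have h0 := congrArg Cub.c0 h
    change Ideal.Quotient.mk I (L b).c0 = f (Uhom k B a b).c0 at h0
    rw [← (hF b).1] at h0
    exact h0
  · have h0 := congrArg Cub.c1 h
    change Ideal.Quotient.mk I (L b).c1 = f (Uhom k B a b).c1 at h0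
    rw [← (hF b).2.1] at h0
    exact h0
  · have h0 := congrArg Cub.c2 h
    change Ideal.Quotient.mk I (L b).c2 = f (Uhom k B a b).c2 at h0
    rw [← (hF b).2.2] at h0
    exact h0

theorem UU_finiteType [hft : Algebra.FiniteType k B] : Algebra.FiniteType P (UU k B a) := by
  classical
  obtain ⟨s, hs⟩ := hft.out
  let s' : Finset (UU k B a) := (s.image fun b => (Uhom k B a b).c0) ∪
    (s.image fun b => (Uhom k B a b).c1) ∪ (s.image fun b => (Uhom k B a b).c2)
  refine ⟨⟨s', Ugen (k := k) (B := B) (a := a) (s : Set B) hs _ ?_⟩⟩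
  intro b hb
  have hb' : b ∈ s := hb
  refine ⟨Algebra.subset_adjoin ?_, Algebra.subset_adjoin ?_, Algebra.subset_adjoin ?_⟩
  · exact Finset.mem_union_left _ (Finset.mem_union_left _ (Finset.mem_image_of_mem _ hb'))
  · exact Finset.mem_union_left _ (Finset.mem_union_right _ (Finset.mem_image_of_mem _ hb'))
  · exact Finset.mem_union_right _ (Finset.mem_image_of_mem _ hb')

theorem UU_smooth [IsNoetherianRing P] [Algebra.Smooth k B] : Algebra.Smooth P (UU k B a) where
  formallySmooth := UU_formallySmooth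
  finitePresentation := by
    have h : Algebra.FiniteType P (UU k B a) := UU_finiteType
    exact Algebra.FinitePresentation.of_finiteType.1 h

theorem UU_smooth_base [IsNoetherianRing P] [Algebra.Smooth k P] [Algebra.Smooth k B] :
    Algebra.Smooth k (UU k B a) := by
  have h : Algebra.Smooth P (UU k B a) := UU_smooth
  exact Algebra.Smooth.comp k P (UU k B a)

end Pool.Agent.H413.RS
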