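import Pool.Agent.H413.RS.Core
import Pool.Agent.H413.RS.Indep

set_option autoImplicit false

universe u v w

open TensorProduct
open scoped Matrix

namespace Pool.Agent.H413.RS

/-- The structure constants of the algebra of functions on three points in the basis given by
`T`. -/
theorem exists_struct {F : Type u} [Field F] (T : Matrix (Fin 3) (Fin 3) F)
    (hT0 : ∀ i, T i 0 = 1) (hdet : T.det ≠ 0) : ∃ a : Fin 6 → F,
    (∀ i, T i 1 * T i 1 = Cub.kA a + a 0 * T i 1 + a 1 * T i 2) ∧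
    (∀ i, T i 1 * T i 2 = Cub.kB a + a 2 * T i 1 + a 3 * T i 2) ∧
    (∀ i, T i 2 * T i 2 = Cub.kC a + a 4 * T i 1 + a 5 * T i 2) := by
  have hinv : T * T⁻¹ = 1 := Matrix.mul_nonsing_inv T (Ne.isUnit hdet)
  have hex : ∀ c : Fin 3 → F, ∃ x : Fin 3 → F, ∀ i, c i = x 0 + x 1 * T i 1 + x 2 * T i 2 := by
    intro c
    refine ⟨T⁻¹ *ᵥ c, fun i => ?_⟩
    have h1 : T *ᵥ (T⁻¹ *ᵥ c) = c := by rw [Matrix.mulVec_mulVec, hinv, Matrix.one_mulVec]
    have h2 := congrFun h1 i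
    rw [Matrix.mulVec, dotProduct, Fin.sum_univ_three, hT0] at h2
    rw [← h2]
    ring
  obtain ⟨A, hA⟩ := hex fun i => T i 1 * T i 1
  obtain ⟨B, hB⟩ := hex fun i => T i 1 * T i 2
  obtain ⟨C, hC⟩ := hex fun i => T i 2 * T i 2
  have hinj := fun (x0 x1 x2 y0 y1 y2 : F) (h : ∀ i, x0 + x1 * T i 1 + x2 * T i 2 =
      y0 + y1 * T i 1 + y2 * T i 2) => ev_inj T hT0 hdet (RingHom.id F) x0 x1 x2 y0 y1 y2 h
  obtain ⟨-, e1, e2⟩ := hinj (B 1 * A 0 + B 2 * B 0) (B 0 + B 1 * A 1 + B 2 * B 1)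
    (B 1 * A 2 + B 2 * B 2) (A 1 * B 0 + A 2 * C 0) (A 1 * B 1 + A 2 * C 1)
    (A 0 + A 1 * B 2 + A 2 * C 2) (by
      intro i
      have h1 := hA i
      have h2 := hB i
      have h3 := hC i
      linear_combination (-(B 1)) * h1 - (B 2) * h2 - T i 1 * h2 + T i 2 * h1 + A 1 * h2 + A 2 * h3)
  obtain ⟨-, e3, -⟩ := hinj (B 1 * B 0 + B 2 * C 0) (B 1 * B 1 + B 2 * C 1)
    (B 0 + B 1 * B 2 + B 2 * C 2) (C 1 * A 0 + C 2 * B 0) (C 0 + C 1 * A 1 + C 2 * B 1)
    (C 1 * A 2 + C 2 * B 2) (by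
      intro i
      have h1 := hA i
      have h2 := hB i
      have h3 := hC i
      linear_combination (-(B 1)) * h2 - (B 2) * h3 - T i 2 * h2 + T i 1 * h3 + C 1 * h1 + C 2 * h2)
  have hA0 : A 0 = Cub.kA ![A 1, A 2, B 1, B 2, C 1, C 2] := by
    change A 0 = B 1 * A 2 + B 2 * B 2 - A 1 * B 2 - A 2 * C 2
    linear_combination -e2
  have hB0 : B 0 = Cub.kB ![A 1, A 2, B 1, B 2, C 1, C 2] := by
    change B 0 = A 2 * C 1 - B 1 * B 2
    linear_combination e1
  have hC0 : C 0 = Cub.kC ![A 1, A 2, B 1, B 2, C 1, C 2] := by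
    change C 0 = B 1 * B 1 + B 2 * C 1 - C 1 * A 1 - C 2 * B 1
    linear_combination -e3
  refine ⟨![A 1, A 2, B 1, B 2, C 1, C 2], ?_, ?_, ?_⟩
  · intro i
    rw [← hA0]
    exact hA i
  · intro i
    rw [← hB0]
    exact hB i
  · intro i
    rw [← hC0]
    exact hC i

/-- A root of a cubic polynomial with coefficients in a subalgebra is algebraic. -/
lemma isAlgebraic_of_cubic {k F : Type u} [Field k] [Field F] [Algebra k F] (D : Subalgebra k F)
    (t c0 c1 c2 : F) (h0 : c0 ∈ D) (h1 : c1 ∈ D) (h2 : c2 ∈ D)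
    (h : t ^ 3 = c2 * t ^ 2 + c1 * t + c0) : IsAlgebraic D t := by
  apply IsIntegral.isAlgebraic
  refine ⟨Polynomial.X ^ 3 - Polynomial.C ⟨c2, h2⟩ * Polynomial.X ^ 2 -
    Polynomial.C ⟨c1, h1⟩ * Polynomial.X - Polynomial.C ⟨c0, h0⟩, ?_, ?_⟩
  · monicity!
  · simp only [Polynomial.eval₂_sub, Polynomial.eval₂_mul, Polynomial.eval₂_pow,
      Polynomial.eval₂_X, Polynomial.eval₂_C]
    change t ^ 3 - c2 * t ^ 2 - c1 * t - c0 = 0
    rw [h]
    ring

/-- The points are algebraic over the structure constants. -/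
theorem alg_over_struct {k F : Type u} [Field k] [Field F] [Algebra k F] (a : Fin 6 → F) (t s : F)
    (h11 : t * t = Cub.kA a + a 0 * t + a 1 * s)
    (h12 : t * s = Cub.kB a + a 2 * t + a 3 * s)
    (h22 : s * s = Cub.kC a + a 4 * t + a 5 * s) :
    IsAlgebraic (Algebra.adjoin k (Set.range a)) t ∧
    IsAlgebraic (Algebra.adjoin k (Set.range a)) s := by
  set D := Algebra.adjoin k (Set.range a) with hD
  have ha : ∀ i, a i ∈ D := fun i => Algebra.subset_adjoin ⟨i, rfl⟩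
  have hkA : Cub.kA a ∈ D :=
    D.sub_mem (D.sub_mem (D.add_mem (D.mul_mem (ha _) (ha _)) (D.mul_mem (ha _) (ha _)))
      (D.mul_mem (ha _) (ha _))) (D.mul_mem (ha _) (ha _))
  have hkB : Cub.kB a ∈ D :=
    D.sub_mem (D.mul_mem (ha _) (ha _)) (D.mul_mem (ha _) (ha _))
  have hkC : Cub.kC a ∈ D :=
    D.sub_mem (D.sub_mem (D.add_mem (D.mul_mem (ha _) (ha _)) (D.mul_mem (ha _) (ha _)))
      (D.mul_mem (ha _) (ha _))) (D.mul_mem (ha _) (ha _))
  constructor
  · refine isAlgebraic_of_cubic D t (a 1 * Cub.kB a - a 3 * Cub.kA a)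
      (Cub.kA a + a 1 * a 2 - a 3 * a 0) (a 0 + a 3) ?_ ?_ ?_ ?_
    · exact D.sub_mem (D.mul_mem (ha _) hkB) (D.mul_mem (ha _) hkA)
    · exact D.sub_mem (D.add_mem hkA (D.mul_mem (ha _) (ha _))) (D.mul_mem (ha _) (ha _))
    · exact D.add_mem (ha _) (ha _)
    · linear_combination (t - a 3) * h11 + a 1 * h12
  · refine isAlgebraic_of_cubic D s (a 4 * Cub.kB a - a 2 * Cub.kC a)
      (Cub.kC a + a 4 * a 3 - a 2 * a 5) (a 5 + a 2) ?_ ?_ ?_ ?_
    · exact D.sub_mem (D.mul_mem (ha _) hkB) (D.mul_mem (ha _) hkC)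
    · exact D.sub_mem (D.add_mem hkC (D.mul_mem (ha _) (ha _))) (D.mul_mem (ha _) (ha _))
    · exact D.add_mem (ha _) (ha _)
    · linear_combination (s - a 2) * h22 + a 4 * h12

section generic

variable (k : Type u) [Field k]

/-- The field of rational functions in six variables. -/
abbrev FT : Type u := FractionRing (MvPolynomial (Fin 3 × Fin 2) k)

/-- The matrix of three generic points of the plane. -/
noncomputable def Tgen : Matrix (Fin 3) (Fin 3) (FT k) := fun i =>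
  ![1, algebraMap (MvPolynomial (Fin 3 × Fin 2) k) _ (MvPolynomial.X (i, 0)),
    algebraMap (MvPolynomial (Fin 3 × Fin 2) k) _ (MvPolynomial.X (i, 1))]

theorem Tgen_zero (i : Fin 3) : Tgen k i 0 = 1 := rfl
theorem Tgen_one (i : Fin 3) : Tgen k i 1 =
  algebraMap (MvPolynomial (Fin 3 × Fin 2) k) _ (MvPolynomial.X (i, 0)) := rfl
theorem Tgen_two (i : Fin 3) : Tgen k i 2 =
  algebraMap (MvPolynomial (Fin 3 × Fin 2) k) _ (MvPolynomial.X (i, 1)) := rfl

theorem Tgen_det : (Tgen k).det ≠ 0 := by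
  let X : Fin 3 × Fin 2 → MvPolynomial (Fin 3 × Fin 2) k := MvPolynomial.X
  let D : MvPolynomial (Fin 3 × Fin 2) k :=
    (X (1, 0) * X (2, 1) - X (1, 1) * X (2, 0)) - (X (0, 0) * X (2, 1) - X (0, 1) * X (2, 0)) +
      (X (0, 0) * X (1, 1) - X (0, 1) * X (1, 0))
  have h1 : (Tgen k).det = algebraMap _ (FT k) D := by
    rw [Matrix.det_fin_three]
    simp only [Tgen_zero, Tgen_one, Tgen_two, D, map_add, map_sub, map_mul, X]
    ring
  have h2 : D ≠ 0 := by
    intro h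
    have h3 := congrArg (MvPolynomial.aeval (fun p : Fin 3 × Fin 2 =>
      if p = (1, 0) then (1 : k) else if p = (2, 1) then 1 else 0)) h
    simp [D, X] at h3
  rw [h1]
  intro h
  exact h2 (IsFractionRing.injective (MvPolynomial (Fin 3 × Fin 2) k) (FT k)
    (by rw [h, map_zero]))

/-- The structure constants of three generic points are algebraically independent. -/
theorem exists_struct_gen : ∃ a : Fin 6 → FT k, AlgebraicIndependent k a ∧
    (∀ i, Tgen k i 1 * Tgen k i 1 = Cub.kA a + a 0 * Tgen k i 1 + a 1 * Tgen k i 2) ∧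
    (∀ i, Tgen k i 1 * Tgen k i 2 = Cub.kB a + a 2 * Tgen k i 1 + a 3 * Tgen k i 2) ∧
    (∀ i, Tgen k i 2 * Tgen k i 2 = Cub.kC a + a 4 * Tgen k i 1 + a 5 * Tgen k i 2) := by
  obtain ⟨a, h11, h12, h22⟩ := exists_struct (Tgen k) (Tgen_zero k) (Tgen_det k)
  refine ⟨a, ?_, h11, h12, h22⟩
  let e : Fin 3 × Fin 2 ≃ Fin 6 := finProdFinEquiv
  have hr : Set.range (a ∘ e) = Set.range a := e.surjective.range_comp a
  have hind : AlgebraicIndependent k (a ∘ e) := by
    apply indep_of_algebraic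
    rintro ⟨i, l⟩
    rw [hr]
    have h := alg_over_struct (k := k) a _ _ (h11 i) (h12 i) (h22 i)
    fin_cases l
    · exact h.1
    · exact h.2
  exact (algebraicIndependent_equiv e).1 hind

end generic

end Pool.Agent.H413.RS
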